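import Mathlib
import Pool.Agent.H71.TD.Ifc

/-!
The extension of the total colouring project (`Pool/Agent/H71/TD`) to all `p ≥ 2` (`p` fixed): interfaces.

There are `Δ + 2 p` labels `0, ..., Δ + 2 p - 1`. Positions: `T1 = [2 p, 2 p + t)`, `T2 = [4 p + t, 4 p + 2 t)`; the colours
of the exceptional vertices are `6 p + 2 t + (4 p - 2) j`, `j < #Lo`. Compare `Pool/Agent/H71/TD/Ifc.lean`.
-/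

set_option autoImplicit false

namespace Pool.Agent.H90.TDP

open Finset Classical
open Pool.Agent.H71.DN Pool.Agent.H71.DX Pool.Agent.H71.DR Pool.Agent.H71.HL Pool.Agent.H71.DC
open Pool.Agent.H71.TD

/-- The labels `j` and `ℓ` have distance less than `p`. -/
def Nr (p j ℓ : ℕ) : Prop := j < ℓ + p ∧ ℓ < j + p

/-- `ℓ ∈ T1`. -/
def T1 (p t ℓ : ℕ) : Prop := 2 * p ≤ ℓ ∧ ℓ < 2 * p + t

/-- `ℓ ∈ T2`. -/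
def T2 (p t ℓ : ℕ) : Prop := 4 * p + t ≤ ℓ ∧ ℓ < 4 * p + 2 * t

/-- A proper colouring of the defect edges with the labels `0, ..., Δ + 2 p - 1`, in the order `T1 = [0, t)`,
`T2 = [t, 2 t)`, `R = [2 t, Δ + 2 p)`; every exceptional vertex `w` is uncovered at the `2 p` labels of `Hs w ⊆ R`; the sets
`Hs w` are disjoint. -/
structure FcInt {V : Type} [Fintype V] (G : SimpleGraph V) (Δ p k : ℕ) (ty : ℕ → Prop)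
    (nd qt : V → ℕ) (t : ℕ) (δ : ℝ) (φ : ℕ → V → V) (Hs : V → Finset ℕ) : Prop where
  inv : ∀ ℓ < Δ + 2 * p, Inv (φ ℓ)
  adj : ∀ ℓ < Δ + 2 * p, ∀ v, φ ℓ v ≠ v → (Fg G k ty nd).Adj v (φ ℓ v)
  dis : ∀ i < Δ + 2 * p, ∀ j < Δ + 2 * p, i ≠ j → ∀ v, φ i v ≠ v → φ i v ≠ φ j v
  cov : ∀ a b, (Fg G k ty nd).Adj a b → ∃ ℓ < Δ + 2 * p, φ ℓ a = b
  t1 : ∀ ℓ < t, ∀ v, nd v < 2 * k → qt v < 2 → φ ℓ v = v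
  t2 : ∀ ℓ, t ≤ ℓ → ℓ < 2 * t → ∀ v, nd v < 2 * k → 2 ≤ qt v → φ ℓ v = v
  c1 : ∀ w ∈ pt nd (2 * k), Hs w ⊆ Ico (2 * t) (Δ + 2 * p) ∧ (Hs w).card = 2 * p ∧
    ∀ ℓ ∈ Hs w, φ ℓ w = w
  c2 : ∀ w ∈ pt nd (2 * k), ∀ w' ∈ pt nd (2 * k), w ≠ w' → Disjoint (Hs w) (Hs w')
  sm : ∀ ℓ < Δ + 2 * p, ((univ.filter fun v => nd v < 2 * k ∧ φ ℓ v ≠ v).card : ℝ) ≤
    δ * Fintype.card V
  ub : ∀ i < k, ¬ ty i → ∀ ℓ < Δ + 2 * p, |uu nd (φ ℓ) i| ≤ 3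
  us : ∀ i < k, ¬ ty i → 5 * ∑ ℓ ∈ range (Δ + 2 * p), max 0 (-uu nd (φ ℓ) i) ≤ 4 * Δ

/-- The same in the final order of the labels; `c0 w` is the colour of the exceptional vertex `w`, which is uncovered at
the labels of the interval `(c0 w - p, c0 w + p]`. -/
structure FcP {V : Type} [Fintype V] (G : SimpleGraph V) (Δ p k : ℕ) (ty : ℕ → Prop)
    (nd qt : V → ℕ) (t : ℕ) (δ : ℝ) (φ : ℕ → V → V) (c0 : V → ℕ) : Prop where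
  inv : ∀ ℓ < Δ + 2 * p, Inv (φ ℓ)
  adj : ∀ ℓ < Δ + 2 * p, ∀ v, φ ℓ v ≠ v → (Fg G k ty nd).Adj v (φ ℓ v)
  dis : ∀ i < Δ + 2 * p, ∀ j < Δ + 2 * p, i ≠ j → ∀ v, φ i v ≠ v → φ i v ≠ φ j v
  cov : ∀ a b, (Fg G k ty nd).Adj a b → ∃ ℓ < Δ + 2 * p, φ ℓ a = b
  t1 : ∀ ℓ, T1 p t ℓ → ∀ v, nd v < 2 * k → qt v < 2 → φ ℓ v = v
  t2 : ∀ ℓ, T2 p t ℓ → ∀ v, nd v < 2 * k → 2 ≤ qt v → φ ℓ v = v
  c1 : ∀ w ∈ pt nd (2 * k), ∃ j < (pt nd (2 * k)).card, c0 w = 6 * p + 2 * t + (4 * p - 2) * j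
  c2 : ∀ w ∈ pt nd (2 * k), ∀ w' ∈ pt nd (2 * k), c0 w = c0 w' → w = w'
  c3 : ∀ w ∈ pt nd (2 * k), ∀ ℓ, c0 w < ℓ + p → ℓ ≤ c0 w + p → φ ℓ w = w
  sm : ∀ ℓ < Δ + 2 * p, ((univ.filter fun v => nd v < 2 * k ∧ φ ℓ v ≠ v).card : ℝ) ≤
    δ * Fintype.card V
  ub : ∀ i < k, ¬ ty i → ∀ ℓ < Δ + 2 * p, |uu nd (φ ℓ) i| ≤ 3
  us : ∀ i < k, ¬ ty i → 5 * ∑ ℓ ∈ range (Δ + 2 * p), max 0 (-uu nd (φ ℓ) i) ≤ 4 * Δ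

/-- Colours `c` of the vertices and sets `S v` of `2 p` labels that contain the labels at distance less than `p` from
`c v`, and that fit to `φ`. -/
structure GaP {V : Type} [Fintype V] (G : SimpleGraph V) (Δ p k : ℕ) (ty : ℕ → Prop)
    (nd qt : V → ℕ) (t : ℕ) (κ : ℝ) (φ : ℕ → V → V) (c : V → ℕ) (S : V → Finset ℕ) : Prop where
  lt : ∀ v, c v < Δ + 2 * p
  S1 : ∀ v, S v ⊆ range (Δ + 2 * p) ∧ (S v).card = 2 * p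
  S2 : ∀ v, ∀ ℓ < Δ + 2 * p, Nr p (c v) ℓ → ℓ ∈ S v
  fr : ∀ v, ∀ ℓ ∈ S v, φ ℓ v = v
  pr : ∀ a b, G.Adj a b → c a ≠ c b
  t1 : ∀ v, nd v < 2 * k → qt v < 2 → ∀ ℓ ∈ S v, ¬ T1 p t ℓ
  t2 : ∀ v, nd v < 2 * k → 2 ≤ qt v → ∀ ℓ ∈ S v, ¬ T2 p t ℓ
  ev : ∀ i < k, ty i → ∀ ℓ < Δ + 2 * p,
    Even ((pt nd (2 * i)).filter fun v => ¬ (φ ℓ v ≠ v ∨ ℓ ∈ S v)).card
  ba : ∀ i < k, ¬ ty i → ∀ ℓ < Δ + 2 * p,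
    ((pt nd (2 * i)).filter fun v => ¬ (φ ℓ v ≠ v ∨ ℓ ∈ S v)).card =
      ((pt nd (2 * i + 1)).filter fun v => ¬ (φ ℓ v ≠ v ∨ ℓ ∈ S v)).card
  sm : ∀ ℓ < Δ + 2 * p, ((univ.filter fun v => nd v < 2 * k ∧ (φ ℓ v ≠ v ∨ ℓ ∈ S v)).card :
    ℝ) ≤ κ * Fintype.card V

end Pool.Agent.H90.TDP
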