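import Mathlib
import Pool.Agent.H90.TDP.Ifp

/-!
REL: permutation of the labels (`FcInt` to `FcP`).

Proof.  `L := Δ + 2 p`, `Lo := pt nd (2 k)`, `q := #Lo`, `e : Lo ≃ Fin q`; `c0 w := 6 p + 2 t + (4 p - 2) (e w)` for `w ∈ Lo`, `0` otherwise. The intervals `I w := Ioc (c0 w - p) (c0 w + p)`, `w ∈ Lo`, have `2 p` elements, are pairwise disjoint (the `c0 w` differ by at least `4 p - 2 ≥ 2 p`), lie above
`4 p + 2 t` and below `L` (`hsz`). Define `f : ℕ → ℕ` (new label to old label) on `s := T1 ∪ T2 ∪ ⋃ I w`: `f ℓ := ℓ - 2 p` for `2 p ≤ ℓ < 2 p + t`, `f ℓ := ℓ - 4 p` for `4 p + t ≤ ℓ < 4 p + 2 t`, and on `I w` a bijection to `Hs w` (both have `2 p` elements; e.g. by `Finset.orderIsoOfFin` or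
`Finset.equivOfCardEq`). `f` is injective on `s` with values in `[0, t)`, `[t, 2 t)`, `Hs w ⊆ [2 t, L)` (disjoint for different `w`, `c2`). Extend `f` to a bijection `π` of `range L` (`Finset.exists_equiv_extend_of_card_eq` for `α := Fin L`, `t := range L`; or `Fintype` version): `π ℓ < L` for `ℓ < L`, injective and surjective
on `range L`, `π ℓ = f ℓ` for `ℓ ∈ s`. `φ' ℓ := φ (π ℓ)` for `ℓ < L`.
 * `inv, adj, dis, cov, sm, ub`: from those of `φ` (`π` is a permutation of `range L`). `us`: `∑_{ℓ < L} g (π ℓ) = ∑_{ℓ < L} g ℓ` (`Finset.sum_bij` / `Finset.sum_nbij`).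
 * `t1`: `π ℓ = ℓ - 2 p < t`. `t2`: `π ℓ = ℓ - 4 p ∈ [t, 2 t)`. `c3`: for `ℓ ∈ I w` (`c0 w < ℓ + p`, `ℓ ≤ c0 w + p`) `π ℓ ∈ Hs w`.
-/

set_option autoImplicit false

namespace Pool.Agent.H90.TDP

open Finset Classical
open Pool.Agent.H71.DN Pool.Agent.H71.DX Pool.Agent.H71.DR Pool.Agent.H71.HL Pool.Agent.H71.DC
open Pool.Agent.H71.TD

/-- A bijection between the places of the intervals and the uncovered labels. -/
theorem Rel_f {V : Type} (L p t : ℕ) (Lo : Finset V) (Hs : V → Finset ℕ) (c0 : V → ℕ)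
    (hlow : ∀ w ∈ Lo, 6 * p + 2 * t ≤ c0 w) (hhigh : ∀ w ∈ Lo, c0 w + p < L)
    (hsep : ∀ w ∈ Lo, ∀ w' ∈ Lo, w ≠ w' → c0 w + 2 * p ≤ c0 w' ∨ c0 w' + 2 * p ≤ c0 w)
    (hc1 : ∀ w ∈ Lo, Hs w ⊆ Ico (2 * t) L ∧ (Hs w).card = 2 * p)
    (hc2 : ∀ w ∈ Lo, ∀ w' ∈ Lo, w ≠ w' → Disjoint (Hs w) (Hs w')) (htL : 4 * p + 2 * t ≤ L) :
    ∃ π : ℕ → ℕ, (∀ ℓ < L, π ℓ < L) ∧ (∀ i < L, ∀ j < L, π i = π j → i = j) ∧
      (∀ m < L, ∃ ℓ < L, π ℓ = m) ∧ (∀ ℓ, T1 p t ℓ → π ℓ = ℓ - 2 * p) ∧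
      (∀ ℓ, T2 p t ℓ → π ℓ = ℓ - 4 * p) ∧
      (∀ w ∈ Lo, ∀ ℓ, c0 w < ℓ + p → ℓ ≤ c0 w + p → π ℓ ∈ Hs w) := by
  classical
  have hI : ∀ w ∈ Lo, ∃ g : ℕ → ℕ, (∀ ℓ ∈ Ioc (c0 w - p) (c0 w + p), g ℓ ∈ Hs w) ∧
      ∀ i ∈ Ioc (c0 w - p) (c0 w + p), ∀ j ∈ Ioc (c0 w - p) (c0 w + p), g i = g j → i = j := by
    intro w hw
    have hcard : (Ioc (c0 w - p) (c0 w + p)).card = (Hs w).card := by
      rw [Nat.card_Ioc, (hc1 w hw).2]
      have := hlow w hw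
      omega
    let e2 := Finset.equivOfCardEq hcard
    refine ⟨fun ℓ => if h : ℓ ∈ Ioc (c0 w - p) (c0 w + p) then (e2 ⟨ℓ, h⟩ : ℕ) else 0, ?_, ?_⟩
    · intro ℓ hℓ
      simp only [hℓ, dif_pos]
      exact (e2 ⟨ℓ, hℓ⟩).2
    · intro i hi j hj hij
      simp only [hi, hj, dif_pos] at hij
      have h1 : e2 ⟨i, hi⟩ = e2 ⟨j, hj⟩ := Subtype.ext hij
      have h2 := e2.injective h1
      exact congrArg Subtype.val h2
  choose! g hg1 hg2 using hI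
  have huniq : ∀ w ∈ Lo, ∀ w' ∈ Lo, ∀ ℓ, ℓ ∈ Ioc (c0 w - p) (c0 w + p) →
      ℓ ∈ Ioc (c0 w' - p) (c0 w' + p) → w = w' := by
    intro w hw w' hw' ℓ h1 h2
    by_contra hne
    rw [mem_Ioc] at h1 h2
    have := hlow w hw
    have := hlow w' hw'
    rcases hsep w hw w' hw' hne with h | h <;> omega
  let f : ℕ → ℕ := fun ℓ => if ℓ < 2 * p + t then ℓ - 2 * p else if ℓ < 4 * p + 2 * t then ℓ - 4 * p
    else if h : ∃ w, w ∈ Lo ∧ ℓ ∈ Ioc (c0 w - p) (c0 w + p) then g h.choose ℓ else 0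
  have hf1 : ∀ ℓ, T1 p t ℓ → f ℓ = ℓ - 2 * p := by
    intro ℓ h
    have h' := h.2
    simp only [f, h', if_true]
  have hf2 : ∀ ℓ, T2 p t ℓ → f ℓ = ℓ - 4 * p := by
    intro ℓ h
    have h1 : ¬ ℓ < 2 * p + t := by have := h.1; omega
    have h2 := h.2
    simp only [f, h1, h2, if_true, if_false]
  have hf3 : ∀ w ∈ Lo, ∀ ℓ ∈ Ioc (c0 w - p) (c0 w + p), f ℓ = g w ℓ := by
    intro w hw ℓ hℓ
    have hl := hlow w hw
    have hm := mem_Ioc.mp hℓ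
    have h1 : ¬ ℓ < 2 * p + t := by omega
    have h2 : ¬ ℓ < 4 * p + 2 * t := by omega
    have hex : ∃ w, w ∈ Lo ∧ ℓ ∈ Ioc (c0 w - p) (c0 w + p) := ⟨w, hw, hℓ⟩
    have h3 : f ℓ = g hex.choose ℓ := by
      simp only [f, h1, h2, if_false]
      rw [dif_pos hex]
    rw [h3, huniq _ hex.choose_spec.1 w hw ℓ hex.choose_spec.2 hℓ]
  have hrange3 : ∀ w ∈ Lo, ∀ ℓ ∈ Ioc (c0 w - p) (c0 w + p), 2 * t ≤ f ℓ ∧ f ℓ < L ∧ f ℓ ∈ Hs w := by
    intro w hw ℓ hℓ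
    have h1 : f ℓ ∈ Hs w := by
      rw [hf3 w hw ℓ hℓ]
      exact hg1 w hw ℓ hℓ
    have h2 := mem_Ico.mp ((hc1 w hw).1 h1)
    exact ⟨h2.1, h2.2, h1⟩
  let S : Set (Fin L) := {x | T1 p t x.val ∨ T2 p t x.val ∨ ∃ w ∈ Lo, x.val ∈ Ioc (c0 w - p) (c0 w + p)}
  have hmaps : S.MapsTo (fun x : Fin L => f x.val) (range L : Finset ℕ) := by
    intro x hx
    rw [Finset.mem_coe, mem_range]
    rcases hx with h | h | ⟨w, hw, h⟩
    · show f x.val < L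
      rw [hf1 _ h]
      have := x.2
      omega
    · show f x.val < L
      rw [hf2 _ h]
      have := x.2
      omega
    · exact (hrange3 w hw _ h).2.1
  have hinj : Set.InjOn (fun x : Fin L => f x.val) S := by
    intro x hx y hy hxy
    have hxy' : f x.val = f y.val := hxy
    apply Fin.ext
    rcases hx with h | h | ⟨w, hw, h⟩ <;> rcases hy with h' | h' | ⟨w', hw', h'⟩
    · rw [hf1 _ h, hf1 _ h'] at hxy'
      have := h.1
      have := h'.1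
      omega
    · rw [hf1 _ h, hf2 _ h'] at hxy'
      have := h.1
      have := h'.1
      have := h.2
      have := h'.2
      omega
    · have h1 := hrange3 w' hw' _ h'
      rw [hf1 _ h] at hxy'
      have := h.1
      have := h.2
      omega
    · rw [hf2 _ h, hf1 _ h'] at hxy'
      have := h.1
      have := h'.1
      have := h.2
      have := h'.2
      omega
    · rw [hf2 _ h, hf2 _ h'] at hxy'
      have := h.1
      have := h'.1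
      omega
    · have h1 := hrange3 w' hw' _ h'
      rw [hf2 _ h] at hxy'
      have := h.1
      have := h.2
      omega
    · have h1 := hrange3 w hw _ h
      rw [hf1 _ h'] at hxy'
      have := h'.1
      have := h'.2
      omega
    · have h1 := hrange3 w hw _ h
      rw [hf2 _ h'] at hxy'
      have := h'.1
      have := h'.2
      omega
    · by_cases hww : w = w'
      · subst hww
        rw [hf3 w hw _ h, hf3 w hw _ h'] at hxy'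
        exact hg2 w hw _ h _ h' hxy'
      · exfalso
        have h1 := (hrange3 w hw _ h).2.2
        have h2 := (hrange3 w' hw' _ h').2.2
        rw [hxy'] at h1
        exact Finset.disjoint_left.mp (hc2 w hw w' hw' hww) h1 h2
  have hcardL : Fintype.card (Fin L) = (range L).card := by
    rw [Fintype.card_fin, card_range]
  obtain ⟨G, hG⟩ := Set.MapsTo.exists_equiv_extend_of_card_eq hcardL hmaps hinj
  have hGlt : ∀ x : Fin L, ((G x : ℕ)) < L := fun x => mem_range.mp (G x).2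
  refine ⟨fun ℓ => if h : ℓ < L then (G ⟨ℓ, h⟩ : ℕ) else ℓ, ?_, ?_, ?_, ?_, ?_, ?_⟩
  · intro ℓ hℓ
    simp only [hℓ, dif_pos]
    exact hGlt _
  · intro i hi j hj hij
    simp only [hi, hj, dif_pos] at hij
    have h1 : G ⟨i, hi⟩ = G ⟨j, hj⟩ := Subtype.ext hij
    exact congrArg Fin.val (G.injective h1)
  · intro m hm
    refine ⟨(G.symm ⟨m, mem_range.mpr hm⟩).val, (G.symm ⟨m, mem_range.mpr hm⟩).2, ?_⟩
    simp only [Fin.is_lt, dif_pos, Fin.eta, Equiv.apply_symm_apply]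
  · intro ℓ h
    have hℓ : ℓ < L := by have := h.2; omega
    simp only [hℓ, dif_pos]
    have := hG ⟨ℓ, hℓ⟩ (Or.inl h)
    rw [this]
    exact hf1 ℓ h
  · intro ℓ h
    have hℓ : ℓ < L := by have := h.2; omega
    simp only [hℓ, dif_pos]
    have := hG ⟨ℓ, hℓ⟩ (Or.inr (Or.inl h))
    rw [this]
    exact hf2 ℓ h
  · intro w hw ℓ h1 h2
    have hh := hhigh w hw
    have hl := hlow w hw
    have hℓ : ℓ < L := by omega
    have hm : ℓ ∈ Ioc (c0 w - p) (c0 w + p) := by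
      rw [mem_Ioc]
      constructor
      · omega
      · exact h2
    simp only [hℓ, dif_pos]
    have := hG ⟨ℓ, hℓ⟩ (Or.inr (Or.inr ⟨w, hw, hm⟩))
    rw [this]
    exact (hrange3 w hw ℓ hm).2.2

theorem rel {V : Type} [Fintype V] (G : SimpleGraph V) (Δ p k : ℕ) (ty : ℕ → Prop)
    (nd qt : V → ℕ) (t : ℕ) (δ : ℝ) (φ : ℕ → V → V) (Hs : V → Finset ℕ) (hp : 1 ≤ p)
    (hsz : 8 * p + 2 * t + (4 * p - 2) * (pt nd (2 * k)).card ≤ Δ)
    (h : FcInt G Δ p k ty nd qt t δ φ Hs) :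
    ∃ (φ' : ℕ → V → V) (c0 : V → ℕ), FcP G Δ p k ty nd qt t δ φ' c0 := by
  set Lo := pt nd (2 * k) with hLo
  let e := Lo.equivFin
  let c0 : V → ℕ := fun w => if h : w ∈ Lo then 6 * p + 2 * t + (4 * p - 2) * (e ⟨w, h⟩).val else 0
  have hc0 : ∀ w (h : w ∈ Lo), c0 w = 6 * p + 2 * t + (4 * p - 2) * (e ⟨w, h⟩).val := by
    intro w h
    simp only [c0, h, dif_pos]
  have hlow : ∀ w ∈ Lo, 6 * p + 2 * t ≤ c0 w := by
    intro w hw
    rw [hc0 w hw]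
    omega
  have hhigh : ∀ w ∈ Lo, c0 w + p < Δ + 2 * p := by
    intro w hw
    rw [hc0 w hw]
    have h1 : (e ⟨w, hw⟩).val + 1 ≤ Lo.card := (e ⟨w, hw⟩).2
    have h2 : (4 * p - 2) * ((e ⟨w, hw⟩).val + 1) ≤ (4 * p - 2) * Lo.card := Nat.mul_le_mul_left _ h1
    rw [Nat.mul_add] at h2
    omega
  have hsep1 : ∀ w (hw : w ∈ Lo) w' (hw' : w' ∈ Lo), (e ⟨w, hw⟩).val < (e ⟨w', hw'⟩).val →
      c0 w + 2 * p ≤ c0 w' := by
    intro w hw w' hw' hlt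
    rw [hc0 w hw, hc0 w' hw']
    have h2 : (4 * p - 2) * ((e ⟨w, hw⟩).val + 1) ≤ (4 * p - 2) * (e ⟨w', hw'⟩).val :=
      Nat.mul_le_mul_left _ hlt
    rw [Nat.mul_add] at h2
    omega
  have hsep : ∀ w ∈ Lo, ∀ w' ∈ Lo, w ≠ w' → c0 w + 2 * p ≤ c0 w' ∨ c0 w' + 2 * p ≤ c0 w := by
    intro w hw w' hw' hne
    have hne' : (e ⟨w, hw⟩).val ≠ (e ⟨w', hw'⟩).val := by
      intro h
      exact hne (congrArg Subtype.val (e.injective (Fin.ext h)))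
    rcases lt_or_gt_of_ne hne' with h | h
    · exact Or.inl (hsep1 w hw w' hw' h)
    · exact Or.inr (hsep1 w' hw' w hw h)
  obtain ⟨π, hp1, hp2, hp3, hp4, hp5, hp6⟩ := Rel_f (Δ + 2 * p) p t Lo Hs c0 hlow hhigh hsep
    (fun w hw => ⟨(h.c1 w hw).1, (h.c1 w hw).2.1⟩) h.c2 (by omega)
  refine ⟨fun ℓ => φ (π ℓ), c0, ?_⟩
  constructor
  · intro ℓ hℓ
    exact h.inv _ (hp1 ℓ hℓ)
  · intro ℓ hℓ v hv
    exact h.adj _ (hp1 ℓ hℓ) v hv
  · intro i hi j hj hij v hv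
    exact h.dis _ (hp1 i hi) _ (hp1 j hj) (fun he => hij (hp2 i hi j hj he)) v hv
  · intro a b hab
    obtain ⟨m, hm, hma⟩ := h.cov a b hab
    obtain ⟨ℓ, hℓ, hℓm⟩ := hp3 m hm
    refine ⟨ℓ, hℓ, ?_⟩
    show φ (π ℓ) a = b
    rw [hℓm]
    exact hma
  · intro ℓ hℓ v hv hq
    refine h.t1 _ ?_ v hv hq
    rw [hp4 ℓ hℓ]
    have := hℓ.1
    have := hℓ.2
    omega
  · intro ℓ hℓ v hv hq
    have h1 := hℓ.1
    have h2 := hℓ.2
    refine h.t2 _ ?_ ?_ v hv hq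
    · rw [hp5 ℓ hℓ]
      omega
    · rw [hp5 ℓ hℓ]
      omega
  · intro w hw
    exact ⟨(e ⟨w, hw⟩).val, (e ⟨w, hw⟩).2, hc0 w hw⟩
  · intro w hw w' hw' heq
    by_contra hne
    rcases hsep w hw w' hw' hne with h1 | h1 <;> omega
  · intro w hw ℓ h1 h2
    exact (h.c1 w hw).2.2 _ (hp6 w hw ℓ h1 h2)
  · intro ℓ hℓ
    exact h.sm _ (hp1 ℓ hℓ)
  · intro i hi hty ℓ hℓ
    exact h.ub i hi hty _ (hp1 ℓ hℓ)
  · intro i hi hty
    have h1 := h.us i hi hty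
    have h2 : ∑ ℓ ∈ range (Δ + 2 * p), max 0 (-uu nd (φ (π ℓ)) i) =
        ∑ ℓ ∈ range (Δ + 2 * p), max 0 (-uu nd (φ ℓ) i) := by
      refine Finset.sum_bij (fun ℓ _ => π ℓ) ?_ ?_ ?_ ?_
      · intro ℓ hℓ
        exact mem_range.mpr (hp1 ℓ (mem_range.mp hℓ))
      · intro a ha b hb hab
        exact hp2 a (mem_range.mp ha) b (mem_range.mp hb) hab
      · intro m hm
        obtain ⟨ℓ, hℓ, hℓm⟩ := hp3 m (mem_range.mp hm)
        exact ⟨ℓ, mem_range.mpr hℓ, hℓm⟩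
      · intro ℓ hℓ
        rfl
    rw [h2]
    exact h1

end Pool.Agent.H90.TDP
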