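import Mathlib
import Pool.Agent.H90.TDP.Ifp

/-!
NMB: numbers of colours for a nearly bipartite part, periodic modulo `2 p - 1` (`p ≥ 2`).

Proof.  `m := 2 p - 1 ≥ 3`. `σ b := h / n1 + (if b < h % n1 then 1 else 0)` for `b < n1`, `σ b ≤ K`, `∑_{b < n1} σ b = h`. `al j := σ b` if `j = s1 + m b + 1` for some `b < n1`, `be j := σ b` if `j = s1 + m b + 2`, `b < n1`; all other values `0` (`b` is determined by `j`: `b = (j - s1) / m`, the residues `1`, `2`
of `(j - s1) % m` are different from each other and from `0` as `m ≥ 3`).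
 Let `A b := s1 + m b + 1`. For `ℓ < L` the inner sum is `D ℓ = ∑_{b < n1} σ b * ([Nr p (A b) ℓ] - [Nr p (A b + 1) ℓ])` (all `A b + 1 < L`). `Nr p (A b) ℓ` holds iff `A b - p < ℓ < A b + p`, so the bracket is `1` for `ℓ = A b - p + 1`, `-1` for `ℓ = A b + p`, and `0` otherwise (`p ≤ s1`).
 `A b + p = A (b + 1) - p + 1`. So `D ℓ` is `0` unless `ℓ = A b - p + 1` with `0 ≤ b ≤ n1`, and `D (A 0 - p + 1) = σ 0`, `D (A b - p + 1) = σ b - σ (b - 1)` for `1 ≤ b < n1`, `D (A n1 - p + 1) = - σ (n1 - 1)`. `σ` is nonincreasing with values `h / n1`, `h / n1 + 1`, so `∑ |D ℓ| ≤ σ 0 + 1 + σ (n1 - 1) ≤ 3 K` (`K ≥ 1`).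
 (A way to avoid the case distinctions: `D ℓ = ∑_{b < n1} σ b ([ℓ = A b - p + 1] - [ℓ = A (b + 1) - p + 1])`, and by summation by parts `= ∑_{b ≤ n1} (σ' b - σ' (b - 1)) [ℓ = A b - p + 1]` with `σ' = σ` on `[0, n1)` and `0` outside; then
 `∑_ℓ |D ℓ| ≤ ∑_{b ≤ n1} |σ' b - σ' (b - 1)|`.)
-/

set_option autoImplicit false

namespace Pool.Agent.H90.TDP

open Finset Classical

/-- the values -/
private def NmB_s (n1 h b : ℕ) : ℕ :=
  if b < n1 then h / n1 + (if b < h % n1 then 1 else 0) else 0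

/-- the spread function -/
private def NmB_F (s1 m n1 h c j : ℕ) : ℕ :=
  ∑ b ∈ range n1, if j = s1 + m * b + c then NmB_s n1 h b else 0

private theorem NmB_le {n1 h K : ℕ} (hn : 0 < n1) (hK : h + n1 ≤ K * n1) (b : ℕ) :
    NmB_s n1 h b ≤ K := by
  have h1 : h / n1 + 1 ≤ K := by
    have h2 : (h / n1 + 1) * n1 ≤ K * n1 := by
      have h3 := Nat.div_mul_le_self h n1
      calc (h / n1 + 1) * n1 = h / n1 * n1 + n1 := by ring
        _ ≤ h + n1 := by omega
        _ ≤ K * n1 := hK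
    exact Nat.le_of_mul_le_mul_right h2 hn
  unfold NmB_s
  split_ifs <;> omega

private theorem NmB_anti (n1 h b : ℕ) : NmB_s n1 h (b + 1) ≤ NmB_s n1 h b := by
  unfold NmB_s
  generalize h / n1 = q
  generalize h % n1 = r
  split_ifs <;> omega

private theorem NmB_sum (n1 h : ℕ) (hn : 0 < n1) : ∑ b ∈ range n1, NmB_s n1 h b = h := by
  have h1 : ∀ b ∈ range n1, NmB_s n1 h b = h / n1 + (if b < h % n1 then 1 else 0) := by
    intro b hb
    unfold NmB_s
    rw [if_pos (mem_range.1 hb)]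
  rw [sum_congr rfl h1, sum_add_distrib, sum_const, card_range, smul_eq_mul]
  have h2 : (∑ b ∈ range n1, if b < h % n1 then 1 else 0) = h % n1 := by
    rw [← card_filter]
    have h3 : (range n1).filter (fun b => b < h % n1) = range (h % n1) := by
      ext b
      rw [mem_filter, mem_range, mem_range]
      constructor
      · exact fun h => h.2
      · intro h4
        exact ⟨h4.trans (Nat.mod_lt h hn), h4⟩
    rw [h3, card_range]
  rw [h2]
  exact Nat.div_add_mod h n1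

private theorem NmB_lt {m b n : ℕ} (hb : b < n) : m * b + m ≤ m * n := by
  calc m * b + m = m * (b + 1) := by ring
    _ ≤ m * n := Nat.mul_le_mul_left m hb

private theorem NmB_F0 {s1 m n1 h c j : ℕ} (hj : ∀ b < n1, j ≠ s1 + m * b + c) :
    NmB_F s1 m n1 h c j = 0 := by
  unfold NmB_F
  refine sum_eq_zero fun b hb => ?_
  rw [if_neg (hj b (mem_range.1 hb))]

private theorem NmB_Fle {s1 m n1 h c K : ℕ} (hm : 0 < m) (hn : 0 < n1)
    (hK : h + n1 ≤ K * n1) (j : ℕ) : NmB_F s1 m n1 h c j ≤ K := by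
  by_cases hj : ∃ b < n1, j = s1 + m * b + c
  · obtain ⟨b, hb, rfl⟩ := hj
    have h1 : NmB_F s1 m n1 h c (s1 + m * b + c) = NmB_s n1 h b := by
      unfold NmB_F
      rw [sum_eq_single b]
      · rw [if_pos rfl]
      · intro b' _ hne
        refine if_neg fun he => hne ?_
        have h2 : m * b = m * b' := by omega
        exact (Nat.eq_of_mul_eq_mul_left hm h2).symm
      · intro h2
        exact absurd (mem_range.2 hb) h2
    rw [h1]
    exact NmB_le hn hK b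
  · rw [NmB_F0 fun b hb he => hj ⟨b, hb, he⟩]
    exact Nat.zero_le _

private theorem NmB_Fsum {s1 m n1 h c L : ℕ} (hn : 0 < n1)
    (hL : ∀ b < n1, s1 + m * b + c < L) : ∑ j ∈ range L, NmB_F s1 m n1 h c j = h := by
  unfold NmB_F
  rw [sum_comm]
  have h1 : ∀ b ∈ range n1, (∑ j ∈ range L, if j = s1 + m * b + c then NmB_s n1 h b else 0) =
      NmB_s n1 h b := by
    intro b hb
    rw [sum_ite_eq', if_pos (mem_range.2 (hL b (mem_range.1 hb)))]
  rw [sum_congr rfl h1]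
  exact NmB_sum n1 h hn

private theorem NmB_Fin {p s1 m n1 h c L ℓ : ℕ} (hL : ∀ b < n1, s1 + m * b + c < L) :
    ∑ j ∈ (range L).filter (fun j => Nr p j ℓ), ((NmB_F s1 m n1 h c j : ℕ) : ℤ) =
      ∑ b ∈ range n1, (NmB_s n1 h b : ℤ) * (if Nr p (s1 + m * b + c) ℓ then 1 else 0) := by
  unfold NmB_F
  push_cast
  rw [sum_comm]
  refine sum_congr rfl fun b hb => ?_
  rw [sum_ite_eq']
  have h1 : s1 + m * b + c ∈ (range L).filter (fun j => Nr p j ℓ) ↔ Nr p (s1 + m * b + c) ℓ := by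
    rw [mem_filter, mem_range]
    exact ⟨fun h => h.2, fun h => ⟨hL b (mem_range.1 hb), h⟩⟩
  by_cases h2 : Nr p (s1 + m * b + c) ℓ
  · rw [if_pos (h1.2 h2), if_pos h2, mul_one]
  · rw [if_neg (fun h3 => h2 (h1.1 h3)), if_neg h2, mul_zero]

private theorem NmB_br {p A ℓ : ℕ} (hp : 1 ≤ p) :
    ((if Nr p A ℓ then 1 else 0) - (if Nr p (A + 1) ℓ then 1 else 0) : ℤ) =
      (if ℓ + p = A + 1 then 1 else 0) - (if ℓ + p = A + 2 * p then 1 else 0) := by
  unfold Nr
  split_ifs <;> omega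

private theorem NmB_parts (n1 h : ℕ) (e : ℕ → ℤ) :
    ∑ b ∈ range n1, (NmB_s n1 h b : ℤ) * (e b - e (b + 1)) =
      ∑ b ∈ range (n1 + 1), ((NmB_s n1 h b : ℤ) - (if b = 0 then 0 else (NmB_s n1 h (b - 1) : ℤ))) * e b := by
  have h0 : NmB_s n1 h n1 = 0 := by
    unfold NmB_s
    rw [if_neg (lt_irrefl n1)]
  have h1 : ∑ b ∈ range (n1 + 1), (NmB_s n1 h b : ℤ) * e b =
      ∑ b ∈ range n1, (NmB_s n1 h b : ℤ) * e b := by
    rw [sum_range_succ, h0]
    simp
  have h2 : ∑ b ∈ range (n1 + 1), (if b = 0 then 0 else (NmB_s n1 h (b - 1) : ℤ)) * e b =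
      ∑ b ∈ range n1, (NmB_s n1 h b : ℤ) * e (b + 1) := by
    rw [sum_range_succ']
    simp
  calc ∑ b ∈ range n1, (NmB_s n1 h b : ℤ) * (e b - e (b + 1)) =
      ∑ b ∈ range n1, ((NmB_s n1 h b : ℤ) * e b - (NmB_s n1 h b : ℤ) * e (b + 1)) :=
        sum_congr rfl fun b _ => by ring
    _ = ∑ b ∈ range (n1 + 1), ((NmB_s n1 h b : ℤ) * e b -
        (if b = 0 then 0 else (NmB_s n1 h (b - 1) : ℤ)) * e b) := by
      rw [sum_sub_distrib, sum_sub_distrib, h1, h2]
    _ = _ := sum_congr rfl fun b _ => by ring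

private theorem NmB_tot (n1 h : ℕ) :
    ∑ b ∈ range (n1 + 1), |(NmB_s n1 h b : ℤ) - (if b = 0 then 0 else (NmB_s n1 h (b - 1) : ℤ))| =
      2 * (NmB_s n1 h 0 : ℤ) := by
  have h0 : NmB_s n1 h n1 = 0 := by
    unfold NmB_s
    rw [if_neg (lt_irrefl n1)]
  rw [sum_range_succ']
  have h1 : ∀ b ∈ range n1, |(NmB_s n1 h (b + 1) : ℤ) -
      (if b + 1 = 0 then 0 else (NmB_s n1 h (b + 1 - 1) : ℤ))| =
      (NmB_s n1 h b : ℤ) - (NmB_s n1 h (b + 1) : ℤ) := by
    intro b _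
    rw [if_neg (Nat.succ_ne_zero b), Nat.add_sub_cancel]
    have h2 : (NmB_s n1 h (b + 1) : ℤ) ≤ NmB_s n1 h b := by exact_mod_cast NmB_anti n1 h b
    rw [abs_of_nonpos (by linarith)]
    ring
  rw [sum_congr rfl h1, sum_range_sub' (fun b => (NmB_s n1 h b : ℤ)), h0]
  simp
  ring

theorem nmBp (p s1 n1 h K : ℕ) (hp : 2 ≤ p) (hs : p ≤ s1) (hn : 0 < n1)
    (hK : h + n1 ≤ K * n1) :
    ∃ al be : ℕ → ℕ, (∀ j, al j = 0 ∨ be j = 0) ∧ (∀ j, al j ≤ K ∧ be j ≤ K) ∧
      (∀ j, (j ≤ s1 ∨ s1 + (2 * p - 1) * n1 ≤ j) → al j = 0 ∧ be j = 0) ∧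
      (∀ i, al (s1 + (2 * p - 1) * i) = 0 ∧ be (s1 + (2 * p - 1) * i) = 0) ∧
      ∀ L, s1 + (2 * p - 1) * n1 ≤ L → ∑ j ∈ range L, al j = h ∧ ∑ j ∈ range L, be j = h ∧
        ∑ ℓ ∈ range L, |∑ j ∈ (range L).filter (fun j => Nr p j ℓ),
          ((al j : ℤ) - be j)| ≤ 3 * (K : ℤ) := by
  have hm3 : 3 ≤ 2 * p - 1 := by omega
  obtain ⟨m, hm⟩ : ∃ m : ℕ, m = 2 * p - 1 := ⟨_, rfl⟩
  rw [← hm] at hm3 ⊢
  have hm0 : 0 < m := by omega
  refine ⟨NmB_F s1 m n1 h 1, NmB_F s1 m n1 h 2, ?_, ?_, ?_, ?_, ?_⟩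
  · intro j
    by_cases h1 : ∃ b < n1, j = s1 + m * b + 1
    · right
      obtain ⟨b, hb, rfl⟩ := h1
      refine NmB_F0 fun b' _ he => ?_
      rcases lt_or_ge b' b with h2 | h2
      · have := NmB_lt (m := m) h2
        omega
      · have := Nat.mul_le_mul_left m h2
        omega
    · left
      exact NmB_F0 fun b hb he => h1 ⟨b, hb, he⟩
  · exact fun j => ⟨NmB_Fle hm0 hn hK j, NmB_Fle hm0 hn hK j⟩
  · intro j hj
    constructor
    · refine NmB_F0 fun b hb he => ?_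
      have h1 := NmB_lt (m := m) hb
      rcases hj with h2 | h2 <;> omega
    · refine NmB_F0 fun b hb he => ?_
      have h1 := NmB_lt (m := m) hb
      rcases hj with h2 | h2 <;> omega
  · intro i
    constructor
    · refine NmB_F0 fun b hb he => ?_
      rcases lt_or_ge b i with h2 | h2
      · have := NmB_lt (m := m) h2
        omega
      · have := Nat.mul_le_mul_left m h2
        omega
    · refine NmB_F0 fun b hb he => ?_
      rcases lt_or_ge b i with h2 | h2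
      · have := NmB_lt (m := m) h2
        omega
      · have := Nat.mul_le_mul_left m h2
        omega
  · intro L hL
    have hL1 : ∀ b < n1, s1 + m * b + 1 < L := fun b hb => by
      have := NmB_lt (m := m) hb
      omega
    have hL2 : ∀ b < n1, s1 + m * b + 2 < L := fun b hb => by
      have := NmB_lt (m := m) hb
      omega
    refine ⟨NmB_Fsum hn hL1, NmB_Fsum hn hL2, ?_⟩
    have hD : ∀ ℓ, ∑ j ∈ (range L).filter (fun j => Nr p j ℓ),
        (((NmB_F s1 m n1 h 1 j : ℕ) : ℤ) - (NmB_F s1 m n1 h 2 j : ℕ)) =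
        ∑ b ∈ range (n1 + 1), ((NmB_s n1 h b : ℤ) - (if b = 0 then 0 else (NmB_s n1 h (b - 1) : ℤ))) *
          (if ℓ + p = s1 + m * b + 2 then 1 else 0) := by
      intro ℓ
      rw [sum_sub_distrib, NmB_Fin hL1, NmB_Fin hL2, ← sum_sub_distrib,
        ← NmB_parts n1 h (fun b => if ℓ + p = s1 + m * b + 2 then 1 else 0)]
      refine sum_congr rfl fun b _ => ?_
      rw [← mul_sub]
      have h1 := NmB_br (p := p) (A := s1 + m * b + 1) (ℓ := ℓ) (by omega)
      have h2 : s1 + m * b + 1 + 1 = s1 + m * b + 2 := by omega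
      have h3 : s1 + m * b + 1 + 2 * p = s1 + m * (b + 1) + 2 := by
        have : m * (b + 1) = m * b + m := by ring
        omega
      rw [h2, h3] at h1
      rw [h1]
    have hone : ∀ b, ∑ ℓ ∈ range L, (if ℓ + p = s1 + m * b + 2 then (1 : ℤ) else 0) ≤ 1 := by
      intro b
      rw [← Finset.sum_filter, Finset.sum_const, nsmul_eq_mul, mul_one]
      have h1 : ((range L).filter fun ℓ => ℓ + p = s1 + m * b + 2).card ≤ 1 := by
        rw [card_le_one]
        intro a ha a' ha'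
        rw [mem_filter] at ha ha'
        omega
      exact_mod_cast h1
    calc ∑ ℓ ∈ range L, |∑ j ∈ (range L).filter (fun j => Nr p j ℓ),
          (((NmB_F s1 m n1 h 1 j : ℕ) : ℤ) - (NmB_F s1 m n1 h 2 j : ℕ))| ≤
        ∑ ℓ ∈ range L, ∑ b ∈ range (n1 + 1),
          |(NmB_s n1 h b : ℤ) - (if b = 0 then 0 else (NmB_s n1 h (b - 1) : ℤ))| *
          (if ℓ + p = s1 + m * b + 2 then 1 else 0) := by
          refine sum_le_sum fun ℓ _ => ?_
          rw [hD ℓ]
          refine (abs_sum_le_sum_abs _ _).trans (le_of_eq ?_)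
          refine sum_congr rfl fun b _ => ?_
          rw [abs_mul]
          congr 1
          split_ifs <;> simp
      _ = ∑ b ∈ range (n1 + 1),
          |(NmB_s n1 h b : ℤ) - (if b = 0 then 0 else (NmB_s n1 h (b - 1) : ℤ))| *
          ∑ ℓ ∈ range L, (if ℓ + p = s1 + m * b + 2 then (1 : ℤ) else 0) := by
          rw [sum_comm]
          refine sum_congr rfl fun b _ => ?_
          rw [mul_sum]
      _ ≤ ∑ b ∈ range (n1 + 1),
          |(NmB_s n1 h b : ℤ) - (if b = 0 then 0 else (NmB_s n1 h (b - 1) : ℤ))| * 1 :=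
          sum_le_sum fun b _ => mul_le_mul_of_nonneg_left (hone b) (abs_nonneg _)
      _ = 2 * (NmB_s n1 h 0 : ℤ) := by
          rw [← NmB_tot n1 h]
          refine sum_congr rfl fun b _ => ?_
          rw [mul_one]
      _ ≤ 3 * (K : ℤ) := by
          have h1 : (NmB_s n1 h 0 : ℤ) ≤ K := by exact_mod_cast NmB_le hn hK 0
          have h2 : (0 : ℤ) ≤ NmB_s n1 h 0 := Nat.cast_nonneg _
          linarith

end Pool.Agent.H90.TDP
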