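import Mathlib
import Pool.Agent.H90.TDP.Ifp

/-!
NME: choice of `N` labels out of `0, ..., L - 1`, not `z`, such that few parities are odd afterwards; every chosen label `j` counts at
the labels `ℓ` with `Nr p j ℓ`.

Proof.  `m := L - N - 1` pairs `{g0 + 2 s, g0 + 2 s + 1}`, `s < m`. For a set `T ⊆ range m` let `u s := g0 + 2 s + (if s ∈ T then 1 else 0)` and `Λ T := (range L \ {z}) \ (range m).image u`; `Λ T ⊆ range L`, `z ∉ Λ T`, `#(Λ T) = L - 1 - m = N` (`u` is injective with values in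
`[g0, g0 + 2 m)`, different from `z`, less than `L`), and `Λ T` contains all `j ≠ z`, `j < L`, outside `[g0, g0 + 2 m)`.
 Let `c T ℓ := #{j ∈ Λ T : Nr p j ℓ}`. For `s < m` put `x s := g0 + 2 s + 1 - p`, `y s := g0 + 2 s + p` (`p ≤ g0`, `y s < L`). If `s ∉ T`, `T' = insert s T`, then `Λ T' = (Λ T ∪ {g0 + 2 s}) \ {g0 + 2 s + 1}`, so `c T' ℓ - c T ℓ = [Nr p (g0 + 2 s) ℓ] - [Nr p (g0 + 2 s + 1) ℓ]`, which is `1` for `ℓ = x s`,
`-1` for `ℓ = y s`, and `0` otherwise. Hence the parity of `c T ℓ - c ∅ ℓ` is odd iff `ℓ = x s` or `ℓ = y s` for an `s ∈ T`; here `s` is unique: `x s = x s'` or `y s = y s'` implies `s = s'`, and `x s = y s'` is impossible (`2 (s - s') = 2 p - 1` is odd).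
 (Direct: `c T ℓ = #{j < L : j ≠ z, Nr p j ℓ} - ∑_{s < m} [Nr p (u s) ℓ]`.)
 Let `par T ℓ :=` the parity of `[ℓ ∈ O] + c T ℓ`. Choose `T := {s < m : par ∅ (x s) and par ∅ (y s) are odd}`. For `s ∈ T` both `par T (x s)`, `par T (y s)` are even; for `s ∉ T` one of them is even (they are those of `∅`). So for every `s < m` there is an even label in `{x s, y s} ⊆ range L`, and these
sets are pairwise disjoint: at least `m` labels are even and at most `L - m = N + 1` are odd.
-/

set_option autoImplicit false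

namespace Pool.Agent.H90.TDP

open Finset Classical

private theorem NmE_term (p g0 s s' a b : ℕ) (hg : p ≤ g0) (ha : a ≤ 1) (hss : s' ≠ s) :
    (Nr p (g0 + 2 * s' + a) (g0 + 2 * s + 1 - p) ↔ Nr p (g0 + 2 * s' + 0) (g0 + 2 * s + 1 - p)) ∧
      (Nr p (g0 + 2 * s' + a) (g0 + 2 * s + p) ↔ Nr p (g0 + 2 * s' + 0) (g0 + 2 * s + p)) := by
  unfold Nr
  constructor <;> omega

private theorem NmE_F (p g0 m : ℕ) (e : ℕ → ℕ) (he : ∀ s, e s ≤ 1) (hp : 1 ≤ p) (hg : p ≤ g0) {s : ℕ} (hs : s < m) :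
    ((range m).filter fun s' => Nr p (g0 + 2 * s' + e s') (g0 + 2 * s + 1 - p)).card + e s =
      ((range m).filter fun s' => Nr p (g0 + 2 * s' + 0) (g0 + 2 * s + 1 - p)).card ∧
    ((range m).filter fun s' => Nr p (g0 + 2 * s' + e s') (g0 + 2 * s + p)).card =
      ((range m).filter fun s' => Nr p (g0 + 2 * s' + 0) (g0 + 2 * s + p)).card + e s := by
  have hsm : s ∈ range m := mem_range.2 hs
  simp only [card_filter]
  have hes := he s
  constructor
  · rw [← add_sum_erase (range m) _ hsm, ← add_sum_erase (range m) (fun s' => if Nr p (g0 + 2 * s' + 0) (g0 + 2 * s + 1 - p) then 1 else 0) hsm]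
    have h1 : ∑ s' ∈ (range m).erase s, (if Nr p (g0 + 2 * s' + e s') (g0 + 2 * s + 1 - p) then 1 else 0) =
        ∑ s' ∈ (range m).erase s, (if Nr p (g0 + 2 * s' + 0) (g0 + 2 * s + 1 - p) then 1 else 0) := by
      refine sum_congr rfl fun s' hs' => ?_
      exact if_congr (NmE_term p g0 s s' (e s') 0 hg (he s') (ne_of_mem_erase hs')).1 rfl rfl
    rw [h1]
    have h2 : (if Nr p (g0 + 2 * s + 0) (g0 + 2 * s + 1 - p) then 1 else 0) = 1 := by
      rw [if_pos]; unfold Nr; omega
    have h3 : (if Nr p (g0 + 2 * s + e s) (g0 + 2 * s + 1 - p) then 1 else 0) + e s = 1 := by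
      rcases Nat.eq_zero_or_pos (e s) with h | h
      · rw [h, h2]
      · have h' : e s = 1 := by omega
        rw [h', if_neg]
        unfold Nr; omega
    rw [h2]
    omega
  · rw [← add_sum_erase (range m) _ hsm, ← add_sum_erase (range m) (fun s' => if Nr p (g0 + 2 * s' + 0) (g0 + 2 * s + p) then 1 else 0) hsm]
    have h1 : ∑ s' ∈ (range m).erase s, (if Nr p (g0 + 2 * s' + e s') (g0 + 2 * s + p) then 1 else 0) =
        ∑ s' ∈ (range m).erase s, (if Nr p (g0 + 2 * s' + 0) (g0 + 2 * s + p) then 1 else 0) := by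
      refine sum_congr rfl fun s' hs' => ?_
      exact if_congr (NmE_term p g0 s s' (e s') 0 hg (he s') (ne_of_mem_erase hs')).2 rfl rfl
    rw [h1]
    have h2 : (if Nr p (g0 + 2 * s + 0) (g0 + 2 * s + p) then 1 else 0) = 0 := by
      rw [if_neg]; unfold Nr; omega
    have h3 : (if Nr p (g0 + 2 * s + e s) (g0 + 2 * s + p) then 1 else 0) = e s := by
      rcases Nat.eq_zero_or_pos (e s) with h | h
      · rw [h, h2]
      · have h' : e s = 1 := by omega
        rw [h', if_pos]
        unfold Nr; omega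
    rw [h2, h3]
    omega

theorem nmEp (p L N z g0 : ℕ) (O : Finset ℕ) (hp : 1 ≤ p) (hN : N + 1 ≤ L) (hz : z < L)
    (hzg : z < g0 ∨ g0 + 2 * (L - N - 1) ≤ z) (hg : p ≤ g0)
    (hgL : g0 + 2 * (L - N - 1) + p ≤ L) :
    ∃ Λ : Finset ℕ, Λ ⊆ range L ∧ z ∉ Λ ∧ Λ.card = N ∧
      (∀ j < L, j ≠ z → (j < g0 ∨ g0 + 2 * (L - N - 1) ≤ j) → j ∈ Λ) ∧
      ((range L).filter fun ℓ => ¬ Even ((if ℓ ∈ O then 1 else 0) +
        (Λ.filter fun j => Nr p j ℓ).card)).card ≤ N + 1 := by
  obtain ⟨m, hm⟩ : ∃ m, m = L - N - 1 := ⟨_, rfl⟩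
  rw [← hm] at hzg hgL ⊢
  have hmL : m + N + 1 = L := by omega
  -- the sets
  set Λ : (ℕ → ℕ) → Finset ℕ := fun e => (range L).filter fun j => j ≠ z ∧ ∀ s < m, j ≠ g0 + 2 * s + e s with hΛ
  have hinj : ∀ e : ℕ → ℕ, (∀ s, e s ≤ 1) → ∀ a b, g0 + 2 * a + e a = g0 + 2 * b + e b → a = b := by
    intro e he a b hab
    have := he a
    have := he b
    omega
  have hcard : ∀ e : ℕ → ℕ, (∀ s, e s ≤ 1) → (Λ e).card = N := by
    intro e he
    have h1 : (Λ e) ∪ (range m).image (fun s => g0 + 2 * s + e s) = (range L).erase z := by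
      ext j
      simp only [hΛ, mem_union, mem_filter, mem_range, mem_image, mem_erase]
      constructor
      · rintro (⟨h1, h2, -⟩ | ⟨s, h1, h2⟩)
        · exact ⟨h2, h1⟩
        · have := he s
          constructor <;> omega
      · rintro ⟨h1, h2⟩
        by_cases h3 : ∃ s < m, j = g0 + 2 * s + e s
        · obtain ⟨s, h4, h5⟩ := h3
          right; exact ⟨s, h4, h5.symm⟩
        · left
          push Not at h3
          exact ⟨h2, h1, h3⟩
    have h2 : Disjoint (Λ e) ((range m).image (fun s => g0 + 2 * s + e s)) := by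
      rw [disjoint_left]
      intro j hj hj2
      simp only [hΛ, mem_filter] at hj
      rw [mem_image] at hj2
      obtain ⟨s, hs, h3⟩ := hj2
      exact hj.2.2 s (mem_range.1 hs) h3.symm
    have h3 : ((range m).image (fun s => g0 + 2 * s + e s)).card = m := by
      rw [card_image_of_injective _ fun a b hab => hinj e he a b hab, card_range]
    have h4 := card_union_of_disjoint h2
    rw [h1, h3, card_erase_of_mem (mem_range.2 hz), card_range] at h4
    omega
  have hsum : ∀ e : ℕ → ℕ, (∀ s, e s ≤ 1) → ∀ ℓ, ((Λ e).filter fun j => Nr p j ℓ).card +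
      ((range m).filter fun s' => Nr p (g0 + 2 * s' + e s') ℓ).card = ((range L).filter fun j => j ≠ z ∧ Nr p j ℓ).card := by
    intro e he ℓ
    have h1 : ((Λ e).filter fun j => Nr p j ℓ) ∪ ((range m).filter fun s' => Nr p (g0 + 2 * s' + e s') ℓ).image (fun s => g0 + 2 * s + e s) =
        (range L).filter fun j => j ≠ z ∧ Nr p j ℓ := by
      ext j
      simp only [hΛ, mem_union, mem_filter, mem_range, mem_image]
      constructor
      · rintro (⟨⟨h1, h2, -⟩, h4⟩ | ⟨s, ⟨h1, h2⟩, h3⟩)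
        · exact ⟨h1, h2, h4⟩
        · have := he s
          refine ⟨by omega, by omega, ?_⟩
          rw [← h3]; exact h2
      · rintro ⟨h1, h2, h4⟩
        by_cases h3 : ∃ s < m, j = g0 + 2 * s + e s
        · obtain ⟨s, h5, h6⟩ := h3
          right; exact ⟨s, ⟨h5, by rw [← h6]; exact h4⟩, h6.symm⟩
        · left
          push Not at h3
          exact ⟨⟨h1, h2, h3⟩, h4⟩
    have h2 : Disjoint ((Λ e).filter fun j => Nr p j ℓ) (((range m).filter fun s' => Nr p (g0 + 2 * s' + e s') ℓ).image (fun s => g0 + 2 * s + e s)) := by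
      rw [disjoint_left]
      intro j hj hj2
      rw [mem_filter] at hj
      have hj1 := hj.1
      simp only [hΛ, mem_filter] at hj1
      rw [mem_image] at hj2
      obtain ⟨s, hs, h3⟩ := hj2
      rw [mem_filter] at hs
      exact hj1.2.2 s (mem_range.1 hs.1) h3.symm
    rw [← h1, card_union_of_disjoint h2, card_image_of_injective _ fun a b hab => hinj e he a b hab]
  -- the choice
  set f : ℕ → ℕ := fun ℓ => (if ℓ ∈ O then 1 else 0) + ((Λ fun _ => 0).filter fun j => Nr p j ℓ).card with hf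
  set e : ℕ → ℕ := fun s => if ¬ Even (f (g0 + 2 * s + 1 - p)) ∧ ¬ Even (f (g0 + 2 * s + p)) then 1 else 0 with he
  have he1 : ∀ s, e s ≤ 1 := by
    intro s; rw [he]; dsimp only; split_ifs <;> omega
  refine ⟨Λ e, filter_subset _ _, ?_, hcard e he1, ?_, ?_⟩
  · simp only [hΛ, mem_filter]
    rintro ⟨-, h, -⟩
    exact h rfl
  · intro j hj hjz hj2
    simp only [hΛ, mem_filter, mem_range]
    refine ⟨hj, hjz, fun s hs h => ?_⟩
    have := he1 s
    omega
  -- parities
  set g : ℕ → ℕ := fun ℓ => (if ℓ ∈ O then 1 else 0) + ((Λ e).filter fun j => Nr p j ℓ).card with hgd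
  have hx : ∀ s < m, g (g0 + 2 * s + 1 - p) = f (g0 + 2 * s + 1 - p) + e s := by
    intro s hs
    have a1 := hsum e he1 (g0 + 2 * s + 1 - p)
    have a2 := hsum (fun _ => 0) (fun _ => by omega) (g0 + 2 * s + 1 - p)
    have a3 := (NmE_F p g0 m e he1 hp hg hs).1
    simp only [hgd, hf]
    omega
  have hy : ∀ s < m, g (g0 + 2 * s + p) + e s = f (g0 + 2 * s + p) := by
    intro s hs
    have a1 := hsum e he1 (g0 + 2 * s + p)
    have a2 := hsum (fun _ => 0) (fun _ => by omega) (g0 + 2 * s + p)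
    have a3 := (NmE_F p g0 m e he1 hp hg hs).2
    simp only [hgd, hf]
    omega
  have hev : ∀ s < m, Even (g (g0 + 2 * s + 1 - p)) ∨ Even (g (g0 + 2 * s + p)) := by
    intro s hs
    have b1 := hx s hs
    have b2 := hy s hs
    by_cases hc : ¬ Even (f (g0 + 2 * s + 1 - p)) ∧ ¬ Even (f (g0 + 2 * s + p))
    · left
      have b3 : e s = 1 := by rw [he]; dsimp only; rw [if_pos hc]
      rw [b1, b3]
      exact Odd.add_one (Nat.not_even_iff_odd.1 hc.1)
    · have b3 : e s = 0 := by rw [he]; dsimp only; rw [if_neg hc]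
      rw [b3, add_zero] at b1 b2
      rw [b1, b2]
      by_contra h
      push Not at h
      exact hc h
  -- the injection
  set h : ℕ → ℕ := fun s => if Even (g (g0 + 2 * s + 1 - p)) then g0 + 2 * s + 1 - p else g0 + 2 * s + p with hh
  have hsub : (range m).image h ⊆ (range L).filter fun ℓ => Even (g ℓ) := by
    intro ℓ hℓ
    rw [mem_image] at hℓ
    obtain ⟨s, hs, h1⟩ := hℓ
    rw [mem_range] at hs
    rw [mem_filter, mem_range, ← h1]
    simp only [hh]
    split_ifs with h2
    · exact ⟨by omega, h2⟩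
    · exact ⟨by omega, (hev s hs).resolve_left h2⟩
  have hci : ((range m).image h).card = m := by
    rw [card_image_of_injOn, card_range]
    intro s _ s' _ hss
    simp only [hh] at hss
    split_ifs at hss <;> omega
  have h1 := card_le_card hsub
  rw [hci] at h1
  have h2 : ((range L).filter fun ℓ => Even (g ℓ)).card + ((range L).filter fun ℓ => ¬ Even (g ℓ)).card = L := by
    rw [card_filter_add_card_filter_not, card_range]
  show ((range L).filter fun ℓ => ¬ Even (g ℓ)).card ≤ N + 1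
  omega

end Pool.Agent.H90.TDP
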