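import Mathlib
import Pool.Agent.H90.TDP.Ifp

/-!
XTR: extra labels for the vertices of one part (`ex v` labels for `v ∈ C`; `ex v = 0` for most of them), chosen at odd labels if there are
many of them.

Proof.  `E := ∑_{v ∈ C} ex v`. Let `Q := O ∩ R0` if `N ≤ 2 #O`, and `Q := R0` otherwise. Claim: `#Q > d + E`. In the first case `#Q ≥ #O - #(range L \ R0) = #O - (L - #R0)`, `2 #Q ≥ N - 2 (L - #R0) ≥ 2 (d + E + 1)`. In the second case `#Q = #R0 ≥ L - (L - #R0)`; since `2 (L - #R0) + 2 (d + E + 1) ≤ N` and `N ≤ L`... (use `hNL`) `#R0 ≥ L - (L - #R0) ≥ N / 2 ≥ d + E + 1`.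
 Choose the sets `xs v` one after the other (induction over subsets `C' ⊆ C`): `xs v ⊆ Q \ fb v \ (union of the earlier ones)` with `ex v` elements: possible since `#Q ≥ d + E + 1 ≥ d + (∑ of the earlier ex) + ex v` (`Finset.exists_subset_card_eq`). Let `X := C.biUnion xs`, `#X = E` (disjoint).
 First case: `X ⊆ O`, so the symmetric difference is `O \ X` with `#O - E` elements: `≤ N` if `#O ≤ N`, and `≤ N + 1 - 1` in the other case of `hN`. Second case: at most `#O + E ≤ N` elements (`2 #O < N`, `2 E ≤ N`).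
-/

set_option autoImplicit false

namespace Pool.Agent.H90.TDP

open Finset Classical

private theorem xtr_greedy {V : Type} (ex : V → ℕ) (fb : V → Finset ℕ) (d : ℕ) (Q : Finset ℕ)
    (C : Finset V) : (∀ v ∈ C, (fb v).card ≤ d) → d + ∑ v ∈ C, ex v ≤ Q.card →
    ∃ xs : V → Finset ℕ, (∀ v ∈ C, xs v ⊆ Q ∧ (xs v).card = ex v ∧ Disjoint (xs v) (fb v)) ∧
      (∀ u ∈ C, ∀ v ∈ C, u ≠ v → Disjoint (xs u) (xs v)) := by
  induction C using Finset.induction_on with
  | empty =>
    intro _ _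
    exact ⟨fun _ => ∅, fun v hv => absurd hv (notMem_empty v),
      fun u hu => absurd hu (notMem_empty u)⟩
  | insert v C hv ih =>
    intro hfb hQ
    rw [sum_insert hv] at hQ
    obtain ⟨xs, h1, h2⟩ := ih (fun u hu => hfb u (mem_insert_of_mem hu)) (by omega)
    have hX : (C.biUnion xs).card = ∑ u ∈ C, ex u := by
      rw [card_biUnion h2]
      exact Finset.sum_congr rfl fun u hu => (h1 u hu).2.1
    have hav : ex v ≤ (Q \ (fb v ∪ C.biUnion xs)).card := by
      have h3 := Finset.le_card_sdiff (fb v ∪ C.biUnion xs) Q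
      have h4 := Finset.card_union_le (fb v) (C.biUnion xs)
      have h5 := hfb v (mem_insert_self v C)
      omega
    obtain ⟨S, hS1, hS2⟩ := Finset.exists_subset_card_eq hav
    have hSQ : S ⊆ Q := hS1.trans sdiff_subset
    have hSd : Disjoint S (fb v ∪ C.biUnion xs) := by
      rw [Finset.disjoint_left]
      intro a ha hb
      exact (mem_sdiff.1 (hS1 ha)).2 hb
    have hSf : Disjoint S (fb v) := hSd.mono_right subset_union_left
    have hSX : ∀ u ∈ C, Disjoint S (xs u) := fun u hu =>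
      hSd.mono_right ((subset_biUnion_of_mem xs hu).trans subset_union_right)
    have hne : ∀ u ∈ C, u ≠ v := fun u hu h => hv (h ▸ hu)
    obtain ⟨ys, hys⟩ : ∃ ys : V → Finset ℕ, ∀ u, ys u = if u = v then S else xs u :=
      ⟨_, fun _ => rfl⟩
    have hyv : ys v = S := by rw [hys, if_pos rfl]
    have hyu : ∀ u ∈ C, ys u = xs u := fun u hu => by rw [hys, if_neg (hne u hu)]
    refine ⟨ys, ?_, ?_⟩
    · intro u hu
      rcases mem_insert.1 hu with h | h
      · rw [h, hyv]
        exact ⟨hSQ, hS2, hSf⟩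
      · rw [hyu u h]
        exact h1 u h
    · intro u hu w hw huw
      rcases mem_insert.1 hu with h | h
      · rcases mem_insert.1 hw with h' | h'
        · exact absurd (h.trans h'.symm) huw
        · rw [h, hyv, hyu w h']
          exact hSX w h'
      · rcases mem_insert.1 hw with h' | h'
        · rw [h', hyv, hyu u h]
          exact (hSX u h).symm
        · rw [hyu u h, hyu w h']
          exact h2 u h w h' huw

theorem xtrE {V : Type} [Fintype V] (C : Finset V) (ex : V → ℕ) (fb : V → Finset ℕ)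
    (L N d : ℕ) (R0 O : Finset ℕ) (hR : R0 ⊆ range L) (hO : O ⊆ range L) (hNL : N ≤ 2 * L)
    (hfb : ∀ v ∈ C, (fb v).card ≤ d)
    (hN : O.card ≤ N ∨ (O.card ≤ N + 1 ∧ 1 ≤ ∑ v ∈ C, ex v))
    (hbig : 2 * (d + ∑ v ∈ C, ex v + 1 + (L - R0.card)) ≤ N)
    (hR0 : d + ∑ v ∈ C, ex v + 1 ≤ R0.card) :
    ∃ xs : V → Finset ℕ,
      (∀ v ∈ C, xs v ⊆ R0 ∧ (xs v).card = ex v ∧ Disjoint (xs v) (fb v)) ∧
      (∀ u ∈ C, ∀ v ∈ C, u ≠ v → Disjoint (xs u) (xs v)) ∧
      ((O \ C.biUnion xs) ∪ (C.biUnion xs \ O)).card ≤ N := by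
  obtain ⟨E, hE⟩ : ∃ E, E = ∑ v ∈ C, ex v := ⟨_, rfl⟩
  rw [← hE] at hN hbig hR0
  have hfin : ∀ Q : Finset ℕ, Q ⊆ R0 → d + E ≤ Q.card →
      (∀ X : Finset ℕ, X ⊆ Q → X.card = E → ((O \ X) ∪ (X \ O)).card ≤ N) →
      ∃ xs : V → Finset ℕ,
      (∀ v ∈ C, xs v ⊆ R0 ∧ (xs v).card = ex v ∧ Disjoint (xs v) (fb v)) ∧
      (∀ u ∈ C, ∀ v ∈ C, u ≠ v → Disjoint (xs u) (xs v)) ∧
      ((O \ C.biUnion xs) ∪ (C.biUnion xs \ O)).card ≤ N := by
    intro Q hQ hQc hX
    obtain ⟨xs, h1, h2⟩ := xtr_greedy ex fb d Q C hfb (by rw [← hE]; exact hQc)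
    refine ⟨xs, fun v hv => ⟨(h1 v hv).1.trans hQ, (h1 v hv).2⟩, h2, hX _ ?_ ?_⟩
    · exact Finset.biUnion_subset.2 fun v hv => (h1 v hv).1
    · rw [card_biUnion h2, hE]
      exact Finset.sum_congr rfl fun u hu => (h1 u hu).2.1
  by_cases hc : N ≤ 2 * O.card
  · apply hfin (O ∩ R0) inter_subset_right
    · have h1 := Finset.card_inter_add_card_sdiff O R0
      have h2 : (O \ R0).card ≤ (range L \ R0).card :=
        Finset.card_le_card (sdiff_subset_sdiff hO (le_refl R0))
      have h3 := Finset.card_sdiff_of_subset hR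
      rw [card_range] at h3
      have h4 : R0.card ≤ L := by
        have := Finset.card_le_card hR
        rwa [card_range] at this
      omega
    · intro X hX hXc
      have hXO : X ⊆ O := hX.trans inter_subset_left
      have h1 : X \ O = ∅ := sdiff_eq_empty_iff_subset.2 hXO
      have h2 := Finset.card_sdiff_of_subset hXO
      rw [h1, union_empty]
      rcases hN with h | h <;> omega
  · apply hfin R0 (le_refl R0) (by omega)
    intro X _ hXc
    have h1 := Finset.card_union_le (O \ X) (X \ O)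
    have h2 : (O \ X).card ≤ O.card := Finset.card_le_card sdiff_subset
    have h3 : (X \ O).card ≤ X.card := Finset.card_le_card sdiff_subset
    omega

end Pool.Agent.H90.TDP
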